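import Pool.Agent.Helper77.AU.Core

/-!
# EX+: the sum `out` of helper77 from bounds for finite sets of places
-/

set_option autoImplicit false

namespace Pool.Agent.EXP

open NumberField
open Pool.Agent.V2
open Pool.Agent.Helper64.Vojta (Pl nv)
open Pool.Agent.Helper77.AU

variable {K : Type*} [Field K] [NumberField K]

theorem out_le (S : Finset (FinitePlace K)) {a : K} (ha : a ≠ 0) (B : ℝ)
    (h : ∀ T : Finset (FinitePlace K), (∀ v ∈ T, v ∉ S) → ∑ v ∈ T, |Real.log (v a)| ≤ B) :
    out S a ≤ B := by
  classical
  have hf := finS_out S ha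
  have hf' : (Function.support fun v : FinitePlace K =>
    offS S (fun v => |Real.log (nv v a)|) (.inr v)).Finite := hf
  unfold out gsum
  have h1 : ∑ v : InfinitePlace K, offS S (fun v => |Real.log (nv v a)|) (.inl v) = 0 :=
    Finset.sum_eq_zero fun v _ => rfl
  rw [h1, zero_add, finsum_eq_sum_of_support_subset _ (s := hf'.toFinset) (by simp)]
  refine le_trans (le_of_eq ?_) (h hf'.toFinset fun v hv hvS => ?_)
  · refine Finset.sum_congr rfl fun v hv => ?_
    have h2 : offS S (fun v => |Real.log (nv v a)|) (.inr v) ≠ 0 := by simpa using hv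
    simp only [offS] at h2 ⊢
    split_ifs at h2 ⊢ with h3
    · exact absurd rfl h2
    · rfl
  · have h2 : offS S (fun v => |Real.log (nv v a)|) (.inr v) ≠ 0 := by simpa using hv
    simp [offS, hvS] at h2

end Pool.Agent.EXP
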