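import Pool.Agent.Helper16.SL.Units
import Pool.Agent.Helper52.Vojta.NormLocal
import Pool.Agent.Helper64.GS.Scale

/-!
# EX+, block Units+: points of degree at most two with small counting function

For `y` of degree at most two, off the hyperplanes, with `q h(y) - E ≤ ∑_{v ∈ S} λ_D(y, v)`: the norm forms
`u_i = ℓ_i(y) ℓ_i(y')`, scaled so that `u_{i₀} = 1`, are in `k`, have height `O(h(y) + 1)`, and
`∑_{v ∉ S} |log |u_i|_v| = O(E + 1)`.
-/

set_option autoImplicit false

namespace Pool.Agent.EXP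

open NumberField IntermediateField Pool.Agent.Helper64.Vojta Pool.Agent.VZ Pool.Agent.SL

universe u

section heights

variable {k : Type u} [Field k] [NumberField k] {L : Type u} [Field L] [NumberField L] [Algebra k L]

theorem sum_le_logHeight {m : ℕ} {x : Fin m → L} (hx : x ≠ 0) (h1 : ∀ w, 1 ≤ sn w x)
    (W : Finset (Pl L)) : ∑ w ∈ W, Real.log (sn w x) ≤ Height.logHeight x := by
  classical
  have hfs : (Function.support fun w : FinitePlace L => Real.log (sn (.inr w) x)).Finite :=
    log_support _ (fin_support_sn hx)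
  set W' : Finset (Pl L) := W ∪ (Finset.univ.image Sum.inl ∪ hfs.toFinset.image Sum.inr) with hW'
  have h2 := Pool.Agent.Helper52.Vojta.logHeight_eq_sum hx W' (by
    intro w
    simp [hW']) (by
    intro w hw
    simp only [hW', Finset.mem_union, Finset.mem_image, Set.Finite.mem_toFinset]
    right; right
    exact ⟨w, hw, rfl⟩)
  rw [h2]
  exact Finset.sum_le_sum_of_subset_of_nonneg Finset.subset_union_left
    fun w _ _ => Real.log_nonneg (h1 w)

theorem logHeight_le_of {m : ℕ} {x : Fin m → L} (hx : x ≠ 0) (g : Pl L → ℝ) (B : ℝ)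
    (h1 : ∀ w, Real.log (sn w x) ≤ g w) (h2 : ∀ W : Finset (Pl L), ∑ w ∈ W, g w ≤ B) :
    Height.logHeight x ≤ B := by
  classical
  have hfs : (Function.support fun w : FinitePlace L => Real.log (sn (.inr w) x)).Finite :=
    log_support _ (fin_support_sn hx)
  set W' : Finset (Pl L) := Finset.univ.image Sum.inl ∪ hfs.toFinset.image Sum.inr with hW'
  have h3 := Pool.Agent.Helper52.Vojta.logHeight_eq_sum hx W' (by
    intro w
    simp [hW']) (by
    intro w hw
    simp only [hW', Finset.mem_union, Finset.mem_image, Set.Finite.mem_toFinset]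
    right
    exact ⟨w, hw, rfl⟩)
  rw [h3]
  exact (Finset.sum_le_sum fun w _ => h1 w).trans (h2 W')

theorem sn_two (w : Pl L) (z : L) : sn w ![z, 1] = max (nv w z) 1 := by
  apply le_antisymm
  · refine sn_le w _ _ (zero_le_one.trans (le_max_right _ _)) fun i => ?_
    fin_cases i
    · exact le_max_left _ _
    · show nv w (1 : L) ≤ _
      rw [nv_one]
      exact le_max_right _ _
  · refine max_le ?_ ?_
    · exact le_sn w ![z, 1] 0
    · have := le_sn w ![z, 1] 1
      rwa [show (![z, 1] : Fin 2 → L) 1 = 1 from rfl, nv_one] at this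

theorem cons_one_ne (z : L) : (![z, 1] : Fin 2 → L) ≠ 0 := fun h => by
  have := congrFun h 1
  simp at this

/-- the height of a norm -/
theorem logHeight₁_norm_le (z : L) :
    Height.logHeight₁ (Algebra.norm k z) ≤ Height.logHeight₁ z := by
  classical
  rw [Height.logHeight₁_eq_logHeight, Height.logHeight₁_eq_logHeight]
  refine logHeight_le_of (cons_one_ne _)
    (fun ν => ∑ w ∈ above L ν, Real.log (sn w ![z, 1])) _ (fun ν => ?_) (fun W => ?_)
  · rw [sn_two, Pool.Agent.Helper52.Vojta.nv_norm]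
    have h1 : ∀ w ∈ above L ν, 1 ≤ sn w ![z, 1] := fun w _ => by
      rw [sn_two]; exact le_max_right _ _
    rw [← Real.log_prod (fun w hw => (zero_lt_one.trans_le (h1 w hw)).ne')]
    refine Real.log_le_log (zero_lt_one.trans_le (le_max_right _ _)) (max_le ?_ ?_)
    · refine Finset.prod_le_prod (fun w _ => nv_nonneg _ _) fun w _ => ?_
      rw [sn_two]; exact le_max_left _ _
    · calc (1 : ℝ) = ∏ w ∈ above L ν, (1 : ℝ) := Finset.prod_const_one.symm
        _ ≤ _ := Finset.prod_le_prod (fun _ _ => zero_le_one) h1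
  · have hdisj : (W : Set (Pl k)).PairwiseDisjoint (above L) := by
      intro a _ b _ hab
      rw [Function.onFun, Finset.disjoint_left]
      intro w hwa hwb
      exact hab (above_unique (mem_above.mp hwa) (mem_above.mp hwb))
    rw [← Finset.sum_biUnion hdisj]
    exact sum_le_logHeight (cons_one_ne _) (fun w => by rw [sn_two]; exact le_max_right _ _) _

end heights

variable {k : Type u} [Field k] [NumberField k]

/-- the local terms, made nonnegative -/
noncomputable def gg {L : Type u} [Field L] [NumberField L] [Algebra k L] {m : ℕ} (s : 𝓞 k) (K : ℝ)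
    (a : Fin m → k) (x : Fin m → L) (w : Pl L) : ℝ :=
  loc w (cst a) x - Real.log (nv w (algebraMap k L (s : k))) +
    (match w with | .inl _ => K | .inr _ => 0)

theorem gg_props {m q : ℕ} (ℓ : Fin q → Fin m → k) (r : ℕ) : ∃ (s : 𝓞 k) (K K' : ℝ), s ≠ 0 ∧ 0 ≤ K ∧ 0 ≤ K' ∧
    ∀ (L : Type u) [Field L] [NumberField L] [Algebra k L], Module.finrank k L ≤ r →
      ∀ (x : Fin m → L), x ≠ 0 → ∀ i, ev (cst (ℓ i)) x ≠ 0 →
        (∀ w, 0 ≤ gg s K (ℓ i) x w) ∧
        (∀ W : Finset (Pl L), ∑ w ∈ W, gg s K (ℓ i) x w ≤ Height.logHeight x + K') ∧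
        ∀ w, loc w (cst (ℓ i)) x ≤ gg s K (ℓ i) x w + K' := by
  classical
  -- common denominator
  obtain ⟨s, hs⟩ := IsLocalization.exist_integer_multiples_of_finset (nonZeroDivisors (𝓞 k))
    (Finset.univ.image fun p : Fin q × Fin m => ℓ p.1 p.2)
  have hs0 : (s : 𝓞 k) ≠ 0 := nonZeroDivisors.ne_zero s.2
  have hint : ∀ i j, ∃ b : 𝓞 k, (b : k) = (s : 𝓞 k) * ℓ i j := by
    intro i j
    obtain ⟨b, hb⟩ := hs (ℓ i j) (Finset.mem_image.mpr ⟨(i, j), Finset.mem_univ _, rfl⟩)
    exact ⟨b, by rw [show ((b : 𝓞 k) : k) = algebraMap (𝓞 k) k b from rfl, hb, Algebra.smul_def]⟩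
  choose b hb using hint
  obtain ⟨C1, hC1, hC1'⟩ := fin_lower.{u, u} (s : 𝓞 k) hs0 r
  obtain ⟨M, hM1, hM⟩ := exists_bound_fin.{u, u} (fun p : Fin q × Fin m => (b p.1 p.2 : k)) r
  set K : ℝ := Real.log ((m + 1 : ℝ) ^ 2 * M) with hK
  have hm0 : (0 : ℝ) ≤ m := Nat.cast_nonneg _
  have hc1 : (1 : ℝ) ≤ (m + 1 : ℝ) ^ 2 * M := by nlinarith [sq_nonneg (m : ℝ)]
  have hK0 : 0 ≤ K := Real.log_nonneg hc1
  set N : ℕ := Module.finrank ℚ k * r with hN
  refine ⟨s, K, C1 + 2 * (N * K), hs0, hK0, by positivity, ?_⟩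
  intro L _ _ _ hr x hx i hax
  have hsL : algebraMap k L (s : 𝓞 k) ≠ 0 := by simp
  have hev : ev (cst (fun j => (b i j : k))) x = algebraMap k L (s : 𝓞 k) * ev (cst (ℓ i)) x := by
    simp only [ev, cst, hb, map_mul, Finset.mul_sum]
    refine Finset.sum_congr rfl fun i _ => by ring
  have hev0 : ev (cst (fun j => (b i j : k))) x ≠ 0 := by
    rw [hev]; exact mul_ne_zero hsL hax
  have hloc : ∀ w, loc w (cst (fun j => (b i j : k))) x =
      loc w (cst (ℓ i)) x - Real.log (nv w (algebraMap k L ((s : 𝓞 k) : k))) := by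
    intro w
    simp only [loc]
    rw [hev, nv_mul, Real.log_mul (nv_pos w hsL).ne' (nv_pos w hax).ne']
    ring
  have hfin : ∀ (w : FinitePlace L) j, nv (.inr w) ((cst (fun j => (b i j : k)) : Fin m → L) j) ≤ 1 := by
    intro w j
    exact nv_int_le_one w (algebraMap (𝓞 k) (𝓞 L) (b i j))
  have hcard : (Fintype.card (InfinitePlace L) : ℝ) * K ≤ N * K :=
    mul_le_mul_of_nonneg_right (by exact_mod_cast card_inf_le' hr) hK0
  refine ⟨fun w => ?_, fun W => ?_, fun w => ?_⟩
  · unfold gg
    rw [← hloc]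
    rcases w with w | w
    · have h1 : nv (.inl w) (ev (cst (fun j => (b i j : k))) x) ≤ ((m + 1 : ℝ) ^ 2 * M) * sn (.inl w) x := by
        have := nv_sum_le (.inl w) Finset.univ (fun j => (cst (fun j => (b i j : k)) : Fin m → L) j * x j)
          (M * sn (.inl w) x)
          (mul_nonneg (by linarith) (sn_pos (.inl w) hx).le) (fun j _ => by
            rw [nv_mul]
            exact mul_le_mul (hM L hr (.inl w) (i, j)) (le_sn _ _ _) (nv_nonneg _ _) (by linarith))
        rw [Finset.card_univ, Fintype.card_fin] at this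
        calc nv (.inl w) (ev (cst (fun j => (b i j : k))) x) ≤ (m + 1 : ℝ) ^ 2 * (M * sn (.inl w) x) := this
          _ = _ := by ring
      have h2 := Real.log_le_log (nv_pos (.inl w) hev0) h1
      rw [Real.log_mul (by positivity) (sn_pos (.inl w) hx).ne'] at h2
      simp only [loc]
      linarith
    · have h1 : nv (.inr w) (ev (cst (fun j => (b i j : k))) x) ≤ sn (.inr w) x := by
        refine nv_sum_le_inr w Finset.univ _ (sn (.inr w) x) (sn_pos (.inr w) hx).le
          (fun j _ => ?_)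
        rw [nv_mul]
        calc _ ≤ 1 * sn (.inr w) x :=
              mul_le_mul (hfin w j) (le_sn _ _ _) (nv_nonneg _ _) zero_le_one
          _ = _ := one_mul _
      have h2 := Real.log_le_log (nv_pos (.inr w) hev0) h1
      simp only [loc]
      linarith
  · have h1 := liouville (cst (fun j => (b i j : k))) x hx hev0 M hM1 hfin (fun w j => hM L hr (.inl w) (i, j)) W
    have h2 : ∑ w ∈ W, gg (s : 𝓞 k) K (ℓ i) x w =
        ∑ w ∈ W, loc w (cst (fun j => (b i j : k))) x +
          ∑ w ∈ W, (match w with | .inl _ => K | .inr _ => 0) := by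
      rw [← Finset.sum_add_distrib]
      refine Finset.sum_congr rfl fun w _ => ?_
      rw [hloc]
      rfl
    have h3 : ∑ w ∈ W, (match w with | .inl _ => K | .inr _ => (0 : ℝ)) ≤
        Fintype.card (InfinitePlace L) * K := by
      rw [← Finset.toLeft_disjSum_toRight (u := W), Finset.sum_disjSum]
      simp only [Finset.sum_const_zero, add_zero, Finset.sum_const, nsmul_eq_mul]
      refine mul_le_mul_of_nonneg_right ?_ hK0
      exact_mod_cast Finset.card_le_univ _
    rw [h2]
    linarith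
  · have h1 := hC1' L hr w
    rw [abs_le] at h1
    have h2 : 0 ≤ (N : ℝ) * K := by positivity
    unfold gg
    rcases w with w | w
    · show _ ≤ loc (.inl w) (cst (ℓ i)) x - Real.log (nv (.inl w) (algebraMap k L ((s : 𝓞 k) : k))) + K + _
      linarith
    · show _ ≤ loc (.inr w) (cst (ℓ i)) x - Real.log (nv (.inr w) (algebraMap k L ((s : 𝓞 k) : k))) + 0 + _
      linarith

/-- The core estimate. -/
theorem core (S : Finset (Pl k)) {n q : ℕ} (r : ℕ) (ℓ : Fin q → Fin (n + 1) → k) :
    ∃ c : ℝ, 0 ≤ c ∧ ∀ (y : Fin n → AlgebraicClosure k) (E : ℝ), dg y ≤ r → 0 ≤ E →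
      (∀ i, ev (cst (ℓ i)) (crd y) ≠ 0) → q * hgt y - E ≤ lam ℓ S y → ∀ i i' : Fin q,
        Height.logHeight₁ (Algebra.norm k (ev (cst (ℓ i)) (crd y) / ev (cst (ℓ i')) (crd y))) ≤
          c * (hgt y + 1) ∧
        ∀ T : Finset (FinitePlace k), (∀ v ∈ T, (Sum.inr v : Pl k) ∉ S) →
          ∑ v ∈ T, |Real.log (v (Algebra.norm k (ev (cst (ℓ i)) (crd y) / ev (cst (ℓ i')) (crd y))))| ≤
            c * (E + 1) := by
  classical
  obtain ⟨s, K, K', hs, hK, hK', hg⟩ := gg_props ℓ r
  set A : ℝ := q * K' + q * K' * (r * S.card) with hA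
  have hA0 : 0 ≤ A := by positivity
  refine ⟨r + K' + 2 * (r + A), by positivity, ?_⟩
  intro y E hdg hE hne hy i i'
  set x := crd y with hx
  have hx0 : x ≠ 0 := crd_ne y
  have hdgp := dg_pos' y
  have hdgr : (dg y : ℝ) ≤ r := by exact_mod_cast hdg
  have hhgt : (dg y : ℝ) * hgt y = Height.logHeight x := by
    unfold hgt
    rw [mul_div_cancel₀ _ hdgp.ne']
  have hh0 : 0 ≤ hgt y := div_nonneg (Height.logHeight_nonneg _) hdgp.le
  have hfd : FiniteDimensional k (fld y) :=
    finiteDimensional_adjoin fun x _ => Algebra.IsIntegral.isIntegral x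
  set G : Fin q → Pl (fld y) → ℝ := fun i w => gg s K (ℓ i) x w with hG
  have hg0 : ∀ i w, 0 ≤ G i w := fun i w => (hg (fld y) hdg x hx0 i (hne i)).1 w
  have hgW : ∀ i (W : Finset (Pl (fld y))), ∑ w ∈ W, G i w ≤ Height.logHeight x + K' :=
    fun i => (hg (fld y) hdg x hx0 i (hne i)).2.1
  have hgl : ∀ i w, loc w (cst (ℓ i)) x ≤ G i w + K' := fun i => (hg (fld y) hdg x hx0 i (hne i)).2.2
  set z : fld y := ev (cst (ℓ i)) x / ev (cst (ℓ i')) x with hz
  have hz0 : z ≠ 0 := div_ne_zero (hne i) (hne i')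
  have hlz : ∀ w, Real.log (nv w z) = G i' w - G i w := by
    intro w
    have h1 : nv w z = nv w (ev (cst (ℓ i)) x) / nv w (ev (cst (ℓ i')) x) := by
      rw [hz, div_eq_mul_inv, nv_mul, nv_inv, ← div_eq_mul_inv]
    rw [h1, Real.log_div (nv_pos w (hne i)).ne' (nv_pos w (hne i')).ne']
    simp only [hG, gg, loc]
    ring
  constructor
  · refine (logHeight₁_norm_le (k := k) z).trans ?_
    rw [Height.logHeight₁_eq_logHeight]
    have h1 : Height.logHeight ![z, 1] ≤ Height.logHeight x + K' := by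
      refine logHeight_le_of (cons_one_ne z) (G i') _ (fun w => ?_) (hgW i')
      rw [sn_two]
      rcases le_total (nv w z) 1 with h | h
      · rw [max_eq_right h, Real.log_one]
        exact hg0 i' w
      · rw [max_eq_left h, hlz]
        linarith [hg0 i w]
    refine h1.trans ?_
    rw [← hhgt]
    have h2 : (dg y : ℝ) * hgt y ≤ r * hgt y := mul_le_mul_of_nonneg_right hdgr hh0
    have h3 : 0 ≤ (r : ℝ) := Nat.cast_nonneg _
    nlinarith [mul_nonneg hK' hh0, mul_nonneg hA0 hh0, mul_nonneg h3 hh0]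
  · intro T hT
    -- the places
    have hdisj : ∀ S' : Finset (Pl k), (S' : Set (Pl k)).PairwiseDisjoint (above (fld y)) := by
      intro S' a _ b _ hab
      rw [Function.onFun, Finset.disjoint_left]
      intro w hwa hwb
      exact hab (above_unique (mem_above.mp hwa) (mem_above.mp hwb))
    set T' : Finset (Pl k) := T.image Sum.inr with hT'
    have hST : Disjoint S T' := by
      rw [Finset.disjoint_right]
      intro v hv hvS
      obtain ⟨v', hv', rfl⟩ := Finset.mem_image.mp hv
      exact hT v' hv' hvS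
    have hcard : ((S.biUnion (above (fld y))).card : ℝ) ≤ r * S.card := by
      have h1 : (S.biUnion (above (fld y))).card ≤ ∑ ν ∈ S, (above (fld y) ν).card :=
        Finset.card_biUnion_le
      have h2 : ∑ ν ∈ S, (above (fld y) ν).card ≤ ∑ ν ∈ S, r :=
        Finset.sum_le_sum fun ν _ => (card_above_le ν).trans hdg
      rw [Finset.sum_const, smul_eq_mul, mul_comm] at h2
      exact_mod_cast h1.trans h2
    have hlam : (dg y : ℝ) * lam ℓ S y = ∑ i, ∑ w' ∈ S.biUnion (above (fld y)), loc w' (cst (ℓ i)) x := by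
      unfold lam
      rw [mul_div_cancel₀ _ hdgp.ne', Finset.sum_comm (s := Finset.univ), Finset.sum_biUnion (hdisj S)]
      rfl
    have hlam2 : (dg y : ℝ) * lam ℓ S y ≤
        ∑ i, ∑ w' ∈ S.biUnion (above (fld y)), G i w' + q * K' * (r * S.card) := by
      rw [hlam]
      have h1 : ∑ i, ∑ w' ∈ S.biUnion (above (fld y)), loc w' (cst (ℓ i)) x ≤
          ∑ i, ∑ w' ∈ S.biUnion (above (fld y)), (G i w' + K') :=
        Finset.sum_le_sum fun i _ => Finset.sum_le_sum fun w _ => hgl i w
      refine h1.trans ?_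
      simp only [Finset.sum_add_distrib, Finset.sum_const, Finset.card_univ, Fintype.card_fin, nsmul_eq_mul]
      have h2 : (q : ℝ) * (((S.biUnion (above (fld y))).card : ℝ) * K') ≤ q * (r * S.card * K') :=
        mul_le_mul_of_nonneg_left (mul_le_mul_of_nonneg_right hcard hK') (Nat.cast_nonneg _)
      linarith
    have hall : ∑ i, ∑ w' ∈ (S ∪ T').biUnion (above (fld y)), G i w' ≤
        q * (Height.logHeight x + K') := by
      refine (Finset.sum_le_sum fun i _ => hgW i _).trans (le_of_eq ?_)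
      rw [Finset.sum_const, Finset.card_univ, Fintype.card_fin, nsmul_eq_mul]
    have hsplit : ∑ i, ∑ w' ∈ (S ∪ T').biUnion (above (fld y)), G i w' =
        ∑ i, ∑ w' ∈ S.biUnion (above (fld y)), G i w' + ∑ i, ∑ w' ∈ T'.biUnion (above (fld y)), G i w' := by
      rw [← Finset.sum_add_distrib]
      refine Finset.sum_congr rfl fun i _ => ?_
      rw [Finset.sum_biUnion (hdisj _), Finset.sum_union hST, Finset.sum_biUnion (hdisj _),
        Finset.sum_biUnion (hdisj _)]
    have hT1 : ∑ i, ∑ w' ∈ T'.biUnion (above (fld y)), G i w' ≤ r * E + A := by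
      have h1 : (dg y : ℝ) * (q * hgt y - E) ≤ dg y * lam ℓ S y := mul_le_mul_of_nonneg_left hy hdgp.le
      have h2 : (dg y : ℝ) * E ≤ r * E := mul_le_mul_of_nonneg_right hdgr hE
      rw [hA]
      rw [hsplit] at hall
      rw [← hhgt] at hall
      nlinarith
    have hT2 : ∑ v ∈ T, |Real.log (v (Algebra.norm k z))| ≤
        ∑ w' ∈ T'.biUnion (above (fld y)), (G i w' + G i' w') := by
      rw [Finset.sum_biUnion (hdisj _), hT', Finset.sum_image (fun a _ b _ h => Sum.inr_injective h)]
      refine Finset.sum_le_sum fun v _ => ?_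
      have h1 : v (Algebra.norm k z) = nv (.inr v) (Algebra.norm k z) := rfl
      rw [h1, Pool.Agent.Helper52.Vojta.nv_norm, Real.log_prod (fun w _ => (nv_pos w hz0).ne')]
      refine (Finset.abs_sum_le_sum_abs _ _).trans (Finset.sum_le_sum fun w _ => ?_)
      rw [hlz, abs_le]
      have := hg0 i w
      have := hg0 i' w
      constructor <;> linarith
    have hT3 : ∀ i, ∑ w' ∈ T'.biUnion (above (fld y)), G i w' ≤ r * E + A := fun i =>
      (Finset.single_le_sum (f := fun i => ∑ w' ∈ T'.biUnion (above (fld y)), G i w')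
        (fun i _ => Finset.sum_nonneg fun w _ => hg0 i w) (Finset.mem_univ i)).trans hT1
    refine hT2.trans ?_
    rw [Finset.sum_add_distrib]
    have h4 := hT3 i
    have h5 := hT3 i'
    have h3 : 0 ≤ (r : ℝ) := Nat.cast_nonneg _
    nlinarith [mul_nonneg hK' hE, mul_nonneg hA0 hE, mul_nonneg h3 hE]

/-- Points of degree `r`, general version. -/
theorem units_plus_r (S : Finset (Pl k)) {n q : ℕ} (r : ℕ) (ℓ : Fin q → Fin (n + 1) → k) (i₀ : Fin q) :
    ∃ c : ℝ, 0 ≤ c ∧ ∀ (y : Fin n → AlgebraicClosure k) (E : ℝ), dg y = r → 0 ≤ E →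
      (∀ i, ∑ j, algebraMap k (fld y) (ℓ i j) * crd y j ≠ 0) → q * hgt y - E ≤ lam ℓ S y →
      ∃ (x : Fin r → Fin (n + 1) → AlgebraicClosure k) (s₀ : Fin r) (c' : AlgebraicClosure k)
        (u : Fin q → k), c' ≠ 0 ∧
        (∀ j, x s₀ j = c' * (Fin.cons 1 y : Fin (n + 1) → AlgebraicClosure k) j) ∧
        (∀ s, ∑ j, algebraMap k (AlgebraicClosure k) (ℓ i₀ j) * x s j = 1) ∧
        (∀ i, u i ≠ 0 ∧ algebraMap k (AlgebraicClosure k) (u i) =
          ∏ s, ∑ j, algebraMap k (AlgebraicClosure k) (ℓ i j) * x s j) ∧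
        (∀ i, Height.logHeight₁ (u i) ≤ c * (hgt y + 1)) ∧
        (∀ (i : Fin q) (T : Finset (FinitePlace k)), (∀ v ∈ T, (Sum.inr v : Pl k) ∉ S) →
          ∑ v ∈ T, |Real.log (v (u i))| ≤ c * (E + 1)) ∧
        ∀ (s : Fin r) (d : ℕ) (f : MvPolynomial (Fin (n + 1)) k), f.IsHomogeneous d →
          MvPolynomial.aeval (Fin.cons 1 y : Fin (n + 1) → AlgebraicClosure k) f = 0 →
            MvPolynomial.aeval (x s) f = 0 := by
  classical
  obtain ⟨c, hc, hcore⟩ := core S r ℓ
  refine ⟨c, hc, fun y E hdg hE hne hy => ?_⟩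
  have hfd : FiniteDimensional k (fld y) :=
    finiteDimensional_adjoin fun x _ => Algebra.IsIntegral.isIntegral x
  set x := crd y with hx
  set t : Fin q → fld y := fun i => ev (cst (ℓ i)) x with ht
  have ht0 : ∀ i, t i ≠ 0 := hne
  have hc2 := hcore y E hdg.le hE hne hy
  -- the embeddings
  have hcard : Fintype.card (fld y →ₐ[k] AlgebraicClosure k) = r := by
    rw [AlgHom.card, ← hdg]
    rfl
  let e : Fin r ≃ (fld y →ₐ[k] AlgebraicClosure k) := (Fintype.equivFinOfCardEq hcard).symm
  let φ : fld y →ₐ[k] AlgebraicClosure k := (fld y).val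
  have hlin : ∀ (σ : fld y →ₐ[k] AlgebraicClosure k) (i : Fin q),
      ∑ j, algebraMap k (AlgebraicClosure k) (ℓ i j) * σ (x j / t i₀) = σ (t i / t i₀) := by
    intro σ i
    have h1 : t i / t i₀ = ∑ j, algebraMap k (fld y) (ℓ i j) * (x j / t i₀) := by
      simp only [ht, ev, cst, Finset.sum_div, mul_div_assoc]
    rw [h1, map_sum]
    exact Finset.sum_congr rfl fun j _ => by rw [map_mul, AlgHom.commutes]
  refine ⟨fun s j => e s (x j / t i₀), e.symm φ, φ (t i₀)⁻¹, fun i => Algebra.norm k (t i / t i₀),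
    ?_, ?_, ?_, ?_, ?_, ?_, ?_⟩
  · rw [Ne, map_eq_zero_iff φ φ.injective]
    exact inv_ne_zero (ht0 i₀)
  · intro j
    show e (e.symm φ) (x j / t i₀) = _
    rw [Equiv.apply_symm_apply, div_eq_mul_inv, map_mul, mul_comm]
    congr 1
    refine Fin.cases ?_ (fun j => ?_) j
    · rw [Fin.cons_zero]
      show φ (crd y 0) = 1
      have : crd y 0 = 1 := rfl
      rw [this, map_one]
    · rfl
  · intro s
    show ∑ j, algebraMap k (AlgebraicClosure k) (ℓ i₀ j) * e s (x j / t i₀) = 1
    rw [hlin, div_self (ht0 i₀), map_one]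
  · intro i
    refine ⟨?_, ?_⟩
    · rw [Ne, Algebra.norm_eq_zero_iff]
      exact div_ne_zero (ht0 i) (ht0 i₀)
    · rw [Algebra.norm_eq_prod_embeddings k (AlgebraicClosure k) (t i / t i₀)]
      rw [← Equiv.prod_comp e]
      exact Finset.prod_congr rfl fun s _ => (hlin _ _).symm
  · exact fun i => (hc2 i i₀).1
  · exact fun i => (hc2 i i₀).2
  · intro s d f hf h0
    have hφ : (Fin.cons 1 y : Fin (n + 1) → AlgebraicClosure k) = fun j => φ (x j) := by
      funext j
      refine Fin.cases ?_ (fun j => ?_) j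
      · rw [Fin.cons_zero]
        show _ = φ (crd y 0)
        have : crd y 0 = 1 := rfl
        rw [this, map_one]
      · rfl
    have h1 : MvPolynomial.aeval x f = 0 := by
      rw [hφ, ← MvPolynomial.comp_aeval_apply] at h0
      exact (map_eq_zero_iff φ φ.injective).mp h0
    show MvPolynomial.aeval (fun j => e s (x j / t i₀)) f = 0
    rw [← MvPolynomial.comp_aeval_apply]
    have h2 : (fun j => x j / t i₀) = fun j => (t i₀)⁻¹ * x j := by
      funext j
      rw [div_eq_mul_inv, mul_comm]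
    rw [h2, Pool.Agent.Helper64.GS.aeval_scale hf, h1, mul_zero, map_zero]

/-- Points of degree at most two, with the conjugate point. -/
theorem units_plus (S : Finset (Pl k)) {n q : ℕ} (ℓ : Fin q → Fin (n + 1) → k) (i₀ : Fin q) :
    ∃ c : ℝ, 0 ≤ c ∧ ∀ (y : Fin n → AlgebraicClosure k) (E : ℝ), dg y ≤ 2 → 0 ≤ E →
      (∀ i, ∑ j, algebraMap k (fld y) (ℓ i j) * crd y j ≠ 0) → q * hgt y - E ≤ lam ℓ S y →
      ∃ (x' : Fin (n + 1) → AlgebraicClosure k) (u : Fin q → k) (F : Fin (n + 1) → Fin (n + 1) → k),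
        x' ≠ 0 ∧
        (∀ i j, algebraMap k (AlgebraicClosure k) (F i j) =
          (Fin.cons 1 y : Fin (n + 1) → AlgebraicClosure k) i * x' j +
            (Fin.cons 1 y : Fin (n + 1) → AlgebraicClosure k) j * x' i) ∧
        (∀ i, u i ≠ 0 ∧ algebraMap k (AlgebraicClosure k) (u i) =
          (∑ j, algebraMap k (AlgebraicClosure k) (ℓ i j) * (Fin.cons 1 y : Fin (n + 1) → AlgebraicClosure k) j) *
            ∑ j, algebraMap k (AlgebraicClosure k) (ℓ i j) * x' j) ∧
        u i₀ = 1 ∧ (∀ i, Height.logHeight₁ (u i) ≤ c * (hgt y + 1)) ∧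
        (∀ (i : Fin q) (T : Finset (FinitePlace k)), (∀ v ∈ T, (Sum.inr v : Pl k) ∉ S) →
          ∑ v ∈ T, |Real.log (v (u i))| ≤ c * (E + 1)) ∧
        ∀ (d : ℕ) (f : MvPolynomial (Fin (n + 1)) k), f.IsHomogeneous d →
          MvPolynomial.aeval (Fin.cons 1 y : Fin (n + 1) → AlgebraicClosure k) f = 0 →
            MvPolynomial.aeval x' f = 0 := by
  classical
  obtain ⟨c, hc, hcore⟩ := core S 2 ℓ
  refine ⟨2 * c, by positivity, fun y E hdg hE hne hy => ?_⟩
  have hfd : FiniteDimensional k (fld y) :=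
    finiteDimensional_adjoin fun x _ => Algebra.IsIntegral.isIntegral x
  obtain ⟨σ, hσ, hfix⟩ := exists_conj (fld y) hdg
  set x := crd y with hx
  set t : Fin q → fld y := fun i => ev (cst (ℓ i)) x with ht
  have ht0 : ∀ i, t i ≠ 0 := hne
  have hc2 := hcore y E hdg hE hne hy
  set F0 : fld y := t i₀ * σ (t i₀) with hF0
  have hσt0 : ∀ i, σ (t i) ≠ 0 := fun i => by
    rw [Ne, map_eq_zero_iff σ σ.injective]
    exact ht0 i
  have hF00 : F0 ≠ 0 := mul_ne_zero (ht0 _) (hσt0 _)
  have hvec : ∀ i, (Fin.cons 1 y : Fin (n + 1) → AlgebraicClosure k) i = (x i : AlgebraicClosure k) := by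
    intro i
    refine Fin.cases ?_ (fun j => ?_) i
    · rw [Fin.cons_zero]
      have : x 0 = 1 := rfl
      rw [this]
      rfl
    · rfl
  have hlin : ∀ i, ∑ j, algebraMap k (AlgebraicClosure k) (ℓ i j) *
      (Fin.cons 1 y : Fin (n + 1) → AlgebraicClosure k) j = (t i : AlgebraicClosure k) := by
    intro i
    simp only [ht, ev, cst]
    rw [AddSubmonoidClass.coe_finsetSum]
    exact Finset.sum_congr rfl fun j _ => by rw [hvec]; rfl
  have hli : ∀ i, ∑ j, algebraMap k (AlgebraicClosure k) (ℓ i j) *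
      ((σ (x j) / F0 : fld y) : AlgebraicClosure k) = ((σ (t i) / F0 : fld y) : AlgebraicClosure k) := by
    intro i
    have h1 : σ (t i) / F0 = ∑ j, algebraMap k (fld y) (ℓ i j) * (σ (x j) / F0) := by
      simp only [ht, ev, cst, map_sum, map_mul, AlgHom.commutes, Finset.sum_div, mul_div_assoc]
    rw [h1]
    rw [AddSubmonoidClass.coe_finsetSum]
    exact Finset.sum_congr rfl fun j _ => rfl
  -- the norm forms
  have hz : ∀ i, σ ((t i / t i₀) * σ (t i / t i₀)) = (t i / t i₀) * σ (t i / t i₀) := fun i => by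
    rw [map_mul, hσ, mul_comm]
  choose u hu using fun i => hfix _ (hz i)
  have hF : ∀ i j, σ ((x i * σ (x j) + x j * σ (x i)) / F0) = (x i * σ (x j) + x j * σ (x i)) / F0 := by
    intro i j
    rw [map_div₀, map_add, map_mul, map_mul, hσ, hσ, hF0, map_mul, hσ]
    ring
  choose F hF' using fun i j => hfix _ (hF i j)
  have hd1 : 1 ≤ Module.finrank k (fld y) := Module.finrank_pos
  set d := Module.finrank k (fld y) with hd
  have hnorm : ∀ i, u i ^ d = (Algebra.norm k (t i / t i₀)) ^ 2 := by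
    intro i
    have h1 : Algebra.norm k (algebraMap k (fld y) (u i)) = u i ^ d := Algebra.norm_algebraMap _
    rw [← h1, hu i, map_mul, sq]
    congr 1
    let τ : fld y ≃ₐ[k] fld y := AlgEquiv.ofAlgHom σ σ (AlgHom.ext hσ) (AlgHom.ext hσ)
    exact Algebra.norm_eq_of_algEquiv τ _
  refine ⟨fun j => ((σ (x j) / F0 : fld y) : AlgebraicClosure k), u, F, ?_, ?_, ?_, ?_, ?_, ?_, ?_⟩
  · intro h
    have h1 := congrFun h 0
    have h2 : (σ (x 0) / F0 : fld y) = 0 := by
      apply Subtype.ext
      exact h1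
    have h3 : x 0 = 1 := rfl
    rw [h3, map_one, div_eq_zero_iff] at h2
    rcases h2 with h2 | h2
    · exact one_ne_zero h2
    · exact hF00 h2
  · intro i j
    have h1 : algebraMap k (AlgebraicClosure k) (F i j) =
        (((x i * σ (x j) + x j * σ (x i)) / F0 : fld y) : AlgebraicClosure k) := by
      rw [← hF' i j]; rfl
    rw [h1, hvec, hvec]
    rw [show ((x i : AlgebraicClosure k)) * ((σ (x j) / F0 : fld y) : AlgebraicClosure k) +
      (x j : AlgebraicClosure k) * ((σ (x i) / F0 : fld y) : AlgebraicClosure k) =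
      ((x i * (σ (x j) / F0) + x j * (σ (x i) / F0) : fld y) : AlgebraicClosure k) by push_cast; rfl]
    congr 1
    ring
  · intro i
    refine ⟨?_, ?_⟩
    · intro h0
      have h1 := hu i
      rw [h0, map_zero] at h1
      have h2 : (t i / t i₀) * σ (t i / t i₀) ≠ 0 := by
        refine mul_ne_zero (div_ne_zero (ht0 _) (ht0 _)) ?_
        rw [map_div₀]
        exact div_ne_zero (hσt0 _) (hσt0 _)
      exact h2 h1.symm
    · rw [hlin, hli]
      have h1 : algebraMap k (AlgebraicClosure k) (u i) =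
          (((t i / t i₀) * σ (t i / t i₀) : fld y) : AlgebraicClosure k) := by
        rw [← hu i]; rfl
      rw [h1, show (t i : AlgebraicClosure k) * ((σ (t i) / F0 : fld y) : AlgebraicClosure k) =
        ((t i * (σ (t i) / F0) : fld y) : AlgebraicClosure k) by push_cast; rfl]
      congr 1
      rw [hF0, map_div₀]
      have h2 := ht0 i₀
      have h3 := hσt0 i₀
      field_simp
  · apply (algebraMap k (fld y)).injective
    rw [hu i₀, div_self (ht0 _), map_one, map_one, mul_one]
  · intro i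
    have h1 := (hc2 i i₀).1
    have h2 : (d : ℝ) * Height.logHeight₁ (u i) = 2 * Height.logHeight₁ (Algebra.norm k (t i / t i₀)) := by
      rw [← Height.logHeight₁_pow, hnorm i, Height.logHeight₁_pow]
      norm_num
    have h3 : Height.logHeight₁ (u i) ≤ d * Height.logHeight₁ (u i) :=
      le_mul_of_one_le_left (Height.zero_le_logHeight₁ _) (by exact_mod_cast hd1)
    linarith
  · intro i T hT
    have h1 := (hc2 i i₀).2 T hT
    have h2 : ∀ v ∈ T, |Real.log (v (u i))| ≤ 2 * |Real.log (v (Algebra.norm k (t i / t i₀)))| := by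
      intro v _
      have h3 : (d : ℝ) * Real.log (v (u i)) = 2 * Real.log (v (Algebra.norm k (t i / t i₀))) := by
        rw [← Real.log_pow, ← map_pow, hnorm i, map_pow, Real.log_pow]
        norm_num
      have h4 : (d : ℝ) * |Real.log (v (u i))| = 2 * |Real.log (v (Algebra.norm k (t i / t i₀)))| := by
        have h5 := congrArg abs h3
        rwa [abs_mul, abs_mul, abs_of_nonneg (Nat.cast_nonneg d), abs_of_nonneg (by norm_num : (0 : ℝ) ≤ 2)] at h5
      have h6 : |Real.log (v (u i))| ≤ d * |Real.log (v (u i))| :=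
        le_mul_of_one_le_left (abs_nonneg _) (by exact_mod_cast hd1)
      linarith
    calc ∑ v ∈ T, |Real.log (v (u i))| ≤ ∑ v ∈ T, 2 * |Real.log (v (Algebra.norm k (t i / t i₀)))| :=
          Finset.sum_le_sum h2
      _ = 2 * ∑ v ∈ T, |Real.log (v (Algebra.norm k (t i / t i₀)))| := by rw [Finset.mul_sum]
      _ ≤ 2 * (c * (E + 1)) := by linarith
      _ = 2 * c * (E + 1) := by ring
  · intro d f hf h0
    have hφ : (Fin.cons 1 y : Fin (n + 1) → AlgebraicClosure k) = fun j => (fld y).val (x j) := by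
      funext j
      exact hvec j
    have h1 : MvPolynomial.aeval x f = 0 := by
      rw [hφ, ← MvPolynomial.comp_aeval_apply] at h0
      exact (map_eq_zero_iff (fld y).val (fld y).val.injective).mp h0
    have h2 : (fun j => ((σ (x j) / F0 : fld y) : AlgebraicClosure k)) =
        fun j => ((fld y).val F0⁻¹) * ((fld y).val.comp σ) (x j) := by
      funext j
      show (fld y).val (σ (x j) / F0) = _
      rw [div_eq_mul_inv, map_mul, mul_comm]
      rfl
    rw [h2, Pool.Agent.Helper64.GS.aeval_scale hf, ← MvPolynomial.comp_aeval_apply, h1, map_zero, mul_zero]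

end Pool.Agent.EXP
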